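import Mathlib

namespace Pool.Agent.Lib.MP_288210_al

open Subgroup

variable {Γ : Type*} [Group Γ]

/-- Paths in the Cayley graph of `T` on which `ψ` stays in `[lo, hi]`. -/
def Conn (T : Set Γ) (ψ : Γ → ℤ) (lo hi : ℤ) : Γ → Γ → Prop :=
  Relation.ReflTransGen fun a b =>
    (lo ≤ ψ a ∧ ψ a ≤ hi) ∧ (lo ≤ ψ b ∧ ψ b ≤ hi) ∧ (a⁻¹ * b ∈ T ∨ b⁻¹ * a ∈ T)

variable {T : Set Γ} {ψ : Γ → ℤ} {lo hi lo' hi' : ℤ} {u v w : Γ}

lemma Conn.refl : Conn T ψ lo hi u u := Relation.ReflTransGen.refl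

lemma Conn.trans (h : Conn T ψ lo hi u v) (h' : Conn T ψ lo hi v w) : Conn T ψ lo hi u w :=
  Relation.ReflTransGen.trans h h'

lemma Conn.symm (h : Conn T ψ lo hi u v) : Conn T ψ lo hi v u := by
  induction h with
  | refl => exact Conn.refl
  | tail _ h ih => exact Relation.ReflTransGen.head ⟨h.2.1, h.1, h.2.2.symm⟩ ih

lemma Conn.mono (h : Conn T ψ lo hi u v) (h1 : lo' ≤ lo) (h2 : hi ≤ hi') :
    Conn T ψ lo' hi' u v := by
  induction h with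
  | refl => exact Conn.refl
  | tail _ h ih =>
    exact ih.tail ⟨⟨h1.trans h.1.1, h.1.2.trans h2⟩, ⟨h1.trans h.2.1.1, h.2.1.2.trans h2⟩, h.2.2⟩

lemma Conn.neg (h : Conn T ψ lo hi u v) : Conn T (fun x => -ψ x) (-hi) (-lo) u v := by
  induction h with
  | refl => exact Conn.refl
  | tail _ h ih =>
    exact ih.tail
      ⟨⟨neg_le_neg h.1.2, neg_le_neg h.1.1⟩, ⟨neg_le_neg h.2.1.2, neg_le_neg h.2.1.1⟩, h.2.2⟩

lemma Conn.step {s : Γ} (hs : s ∈ T ∨ s⁻¹ ∈ T) (h1 : lo ≤ ψ u) (h2 : ψ u ≤ hi)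
    (h3 : lo ≤ ψ (u * s)) (h4 : ψ (u * s) ≤ hi) : Conn T ψ lo hi u (u * s) :=
  Relation.ReflTransGen.single ⟨⟨h1, h2⟩, ⟨h3, h4⟩, by simpa using hs⟩

lemma push (hψ : ∀ a b, ψ (a * b) = ψ a + ψ b) {τ : Γ} {N C : ℤ} (hτ : τ ∈ T ∨ τ⁻¹ ∈ T)
    (hN : ψ τ = -N) (hC : 0 ≤ C) (hCN : C < N)
    (hT : ∀ s, s ∈ T ∨ s⁻¹ ∈ T → s = τ ∨ s = τ⁻¹ ∨
      (|ψ s| ≤ C ∧ ∀ a, Conn T ψ (ψ a - C) (ψ a + C) a (a * (τ⁻¹ * s * τ))))
    (hlo : lo + N + C ≤ hi) (h : Conn T ψ lo (hi + 1) u v) (hu : ψ u ≤ hi) (hv : ψ v ≤ hi) :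
    Conn T ψ lo hi u v := by
  have h1 : ψ 1 = 0 := by have := hψ 1 1; rw [mul_one] at this; omega
  have hi' : ψ τ⁻¹ = N := by have := hψ τ τ⁻¹; rw [mul_inv_cancel] at this; omega
  let f : Γ → Γ := fun a => if ψ a = hi + 1 then a * τ else a
  have key : ∀ a s, s ∈ T ∨ s⁻¹ ∈ T → ψ a = hi + 1 → ψ (a * s) ≤ hi + 1 →
      Conn T ψ lo hi (f a) (f (a * s)) := fun a s hs ha hb => by
    have e1 := hψ a s
    have e2 := hψ a τ
    have e3 := hψ (a * s) τ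
    rcases hT s hs with rfl | rfl | ⟨h2, h3⟩
    · simp only [f, if_pos ha, if_neg (show ¬ ψ (a * s) = hi + 1 by omega)]
      exact Conn.refl
    · omega
    · have h4 := (h3 (a * τ)).mono (lo' := lo) (hi' := hi) (by omega) (by omega)
      rw [show a * τ * (τ⁻¹ * s * τ) = a * s * τ by group] at h4
      obtain ⟨h5, h6⟩ := abs_le.1 h2
      simp only [f, if_pos ha]
      split_ifs with h7
      · exact h4
      · exact h4.trans (Conn.step hτ (by omega) (by omega) (by omega) (by omega)).symm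
  have main : Conn T ψ lo hi (f u) (f v) := by
    clear hv
    induction h with
    | refl => exact Conn.refl
    | @tail a b _ hab ih =>
      refine ih.trans ?_
      obtain ⟨⟨a1, a2⟩, ⟨b1, b2⟩, hs⟩ := hab
      by_cases ea : ψ a = hi + 1
      · simpa using key a (a⁻¹ * b) (by simpa using hs) ea (by simpa using b2)
      · by_cases eb : ψ b = hi + 1
        · simpa using (key b (b⁻¹ * a) (by simpa using hs.symm) eb (by simpa using a2)).symm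
        · simp only [f, if_neg ea, if_neg eb]
          exact Relation.ReflTransGen.single ⟨⟨a1, by omega⟩, ⟨b1, by omega⟩, hs⟩
  simpa only [f, if_neg (show ¬ ψ u = hi + 1 by omega), if_neg (show ¬ ψ v = hi + 1 by omega)]
    using main

lemma push_all (hψ : ∀ a b, ψ (a * b) = ψ a + ψ b) {τ : Γ} {N C : ℤ} (hτ : τ ∈ T ∨ τ⁻¹ ∈ T)
    (hN : ψ τ = -N) (hC : 0 ≤ C) (hCN : C < N)
    (hT : ∀ s, s ∈ T ∨ s⁻¹ ∈ T → s = τ ∨ s = τ⁻¹ ∨
      (|ψ s| ≤ C ∧ ∀ a, Conn T ψ (ψ a - C) (ψ a + C) a (a * (τ⁻¹ * s * τ))))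
    (hlo : lo + N + C ≤ hi) (n : ℕ) (h : Conn T ψ lo (hi + n) u v) (hu : ψ u ≤ hi)
    (hv : ψ v ≤ hi) : Conn T ψ lo hi u v := by
  induction n with
  | zero => simpa using h
  | succ n ih =>
    refine ih (push hψ hτ hN hC hCN hT (by omega) ?_ (by omega) (by omega))
    rwa [Nat.cast_succ, ← add_assoc] at h

lemma conn_closure {S : Set Γ} (hS : S ⊆ T) (η : Γ → ℤ) (hw : w ∈ closure S) :
    ∃ C : ℕ, ∀ ψ : Γ → ℤ, (∀ a b, ψ (a * b) = ψ a + ψ b) → (∀ s ∈ S, ψ s = η s) →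
      |ψ w| ≤ C ∧ ∀ a, Conn T ψ (ψ a - C) (ψ a + C) a (a * w) := by
  induction hw using closure_induction with
  | mem s hs =>
    refine ⟨(η s).natAbs, fun ψ hψ h => ⟨by rw [h s hs]; simp, fun a => ?_⟩⟩
    have := hψ a s
    have := h s hs
    exact Conn.step (Or.inl (hS hs)) (by omega) (by omega) (by omega) (by omega)
  | one =>
    refine ⟨0, fun ψ hψ _ => ⟨?_, fun a => by rw [mul_one]; exact Conn.refl⟩⟩
    have := hψ 1 1
    rw [mul_one] at this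
    simp; omega
  | mul x y _ _ hx hy =>
    obtain ⟨C, hC⟩ := hx
    obtain ⟨D, hD⟩ := hy
    refine ⟨C + D, fun ψ hψ h => ?_⟩
    obtain ⟨h1, h2⟩ := hC ψ hψ h
    obtain ⟨h3, h4⟩ := hD ψ hψ h
    rw [abs_le] at h1 h3
    refine ⟨by rw [hψ, abs_le]; push_cast; omega, fun a => ?_⟩
    have := hψ a x
    rw [← mul_assoc]
    exact ((h2 a).mono (by push_cast; omega) (by push_cast; omega)).trans
      ((h4 _).mono (by push_cast; omega) (by push_cast; omega))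
  | inv x _ hx =>
    obtain ⟨C, hC⟩ := hx
    refine ⟨2 * C, fun ψ hψ h => ?_⟩
    obtain ⟨h1, h2⟩ := hC ψ hψ h
    have e0 := hψ 1 1
    have e1 := hψ x x⁻¹
    rw [mul_one] at e0
    rw [mul_inv_cancel] at e1
    rw [abs_le] at h1
    refine ⟨by rw [abs_le]; push_cast; omega, fun a => ?_⟩
    have e2 := hψ a x⁻¹
    have := (h2 (a * x⁻¹)).symm
    rw [inv_mul_cancel_right] at this
    exact this.mono (by push_cast; omega) (by push_cast; omega)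

lemma fg_of_conn (hT : T.Finite) (hψ : ∀ a b, ψ (a * b) = ψ a + ψ b) (K : Subgroup Γ)
    (hK : ∀ x, x ∈ K ↔ ψ x = 0) (h : ∀ x ∈ K, Conn T ψ lo hi 1 x) : K.FG := by
  classical
  have h1 : ψ 1 = 0 := by have := hψ 1 1; rw [mul_one] at this; omega
  have hinv : ∀ x, ψ x⁻¹ = -ψ x := fun x => by
    have := hψ x x⁻¹; rw [mul_inv_cancel] at this; omega
  let r : ℤ → Γ := fun n => if n = 0 then 1 else Function.invFun ψ n
  have hr : ∀ x, ψ (r (ψ x)) = ψ x := fun x => by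
    simp only [r]
    split_ifs with e
    · rw [h1, e]
    · exact Function.invFun_eq ⟨x, rfl⟩
  let Z : Set Γ := ((fun p : ℤ × ℤ × Γ => r p.1 * p.2.2 * (r p.2.1)⁻¹) ''
    (Set.Icc lo hi ×ˢ Set.Icc lo hi ×ˢ T)) ∩ K
  have hZ : Z.Finite := (((Set.finite_Icc _ _).prod ((Set.finite_Icc _ _).prod hT)).image _).inter_of_left _
  refine (Subgroup.fg_iff K).2 ⟨Z, le_antisymm ((closure_le K).2 Set.inter_subset_right) ?_, hZ⟩
  have e : ∀ a b, lo ≤ ψ a ∧ ψ a ≤ hi → lo ≤ ψ b ∧ ψ b ≤ hi → a⁻¹ * b ∈ T →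
      r (ψ a) * (a⁻¹ * b) * (r (ψ b))⁻¹ ∈ closure Z := fun a b ha hb hs =>
    subset_closure ⟨⟨(ψ a, ψ b, a⁻¹ * b), ⟨ha, hb, hs⟩, rfl⟩, (hK _).2 (by
      rw [hψ, hψ, hψ, hinv, hinv, hr, hr]; omega)⟩
  have main : ∀ x, Conn T ψ lo hi 1 x → x * (r (ψ x))⁻¹ ∈ closure Z := fun x hx => by
    induction hx with
    | refl => simp [h1, r]
    | @tail a b _ hab ih =>
      obtain ⟨ha, hb, hs | hs⟩ := hab
      · simpa [mul_assoc] using mul_mem ih (e a b ha hb hs)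
      · simpa [mul_assoc] using mul_mem ih (inv_mem (e b a hb ha hs))
  intro x hx
  have := main x (h x hx)
  simpa [(hK x).1 hx, r] using this

/-- Classes near a fibred class are fibred. -/
theorem ker_fg {S : Set Γ} (hS : S.Finite) (t : Γ) (hgen : closure (insert t S) = ⊤)
    (hc : ∀ s ∈ S, t * s * t⁻¹ ∈ closure S ∧ t⁻¹ * s * t ∈ closure S) (η : Γ → ℤ) :
    ∃ N0 : ℤ, ∀ ψ : Γ → ℤ, (∀ a b, ψ (a * b) = ψ a + ψ b) → (∀ s ∈ S, ψ s = η s) → N0 ≤ ψ t →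
      ∀ K : Subgroup Γ, (∀ x, x ∈ K ↔ ψ x = 0) → K.FG := by
  let W : Set Γ := ⋃ s ∈ S, {s, s⁻¹, t * s * t⁻¹, t⁻¹ * s * t, t * s⁻¹ * t⁻¹, t⁻¹ * s⁻¹ * t}
  have hW : W.Finite := hS.biUnion fun _ _ => Set.toFinite _
  have hWS : ∀ w ∈ W, w ∈ closure S := fun w hw => by
    obtain ⟨s, hs, hw⟩ := Set.mem_iUnion₂.1 hw
    have h1 := subset_closure hs
    obtain ⟨h2, h3⟩ := hc s hs
    rcases hw with rfl | rfl | rfl | rfl | rfl | rfl
    exacts [h1, inv_mem h1, h2, h3, by simpa [mul_assoc] using inv_mem h2,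
      by simpa [mul_assoc] using inv_mem h3]
  choose! c hc' using fun w (hw : w ∈ W) =>
    conn_closure (T := insert t S) (Set.subset_insert t S) η (hWS w hw)
  obtain ⟨C, hC⟩ := (hW.image c).bddAbove
  refine ⟨C + 1, fun ψ hψ hη hN K hK => ?_⟩
  have h1 : ψ 1 = 0 := by have := hψ 1 1; rw [mul_one] at this; omega
  have hi' : ψ t⁻¹ = -ψ t := by have := hψ t t⁻¹; rw [mul_inv_cancel] at this; omega
  have hb : ∀ w ∈ W, |ψ w| ≤ C ∧ ∀ a, Conn (insert t S) ψ (ψ a - C) (ψ a + C) a (a * w) :=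
    fun w hw => by
      have h2 : c w ≤ C := hC ⟨w, hw, rfl⟩
      obtain ⟨h3, h4⟩ := hc' w hw ψ hψ hη
      exact ⟨h3.trans (by exact_mod_cast h2), fun a => (h4 a).mono (by omega) (by omega)⟩
  have hs : ∀ s, s ∈ insert t S ∨ s⁻¹ ∈ insert t S → s = t ∨ s = t⁻¹ ∨
      (s ∈ W ∧ t * s * t⁻¹ ∈ W ∧ t⁻¹ * s * t ∈ W) := fun s hs => by
    rcases hs with (h | h) | (h | h)
    · exact Or.inl h
    · exact Or.inr (Or.inr (by
        refine ⟨?_, ?_, ?_⟩ <;> exact Set.mem_iUnion₂.2 ⟨s, h, by simp⟩))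
    · exact Or.inr (Or.inl (inv_eq_iff_eq_inv.1 h))
    · exact Or.inr (Or.inr (by
        refine ⟨?_, ?_, ?_⟩ <;> exact Set.mem_iUnion₂.2 ⟨s⁻¹, h, by simp⟩))
  refine fg_of_conn (lo := -(ψ t + C)) (hi := ψ t + C) (hS.insert t) hψ K hK fun x hx => ?_
  obtain ⟨D, hD⟩ := conn_closure (T := insert t S) subset_rfl ψ (w := x) (hgen ▸ mem_top x)
  have h2 := (hD ψ hψ fun _ _ => rfl).2 1
  have hx0 := (hK x).1 hx
  rw [one_mul, h1] at h2
  have h3 := push_all (lo := -(ψ t + C) - D) (hi := ψ t + C) hψ (τ := t⁻¹) (N := ψ t) (C := C)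
    (Or.inr (by simp)) hi' (by omega) (by omega) (fun s h => by
      rcases hs s h with h | h | h
      · exact Or.inr (Or.inl (by simpa using h))
      · exact Or.inl h
      · exact Or.inr (Or.inr ⟨(hb s h.1).1, by simpa using (hb _ h.2.1).2⟩)) (by omega) D
    (h2.mono (by omega) (by omega)) (by omega) (by omega)
  have h4 := push_all (lo := -(ψ t + C)) (hi := ψ t + C) (ψ := fun x => -ψ x)
    (fun a b => by rw [hψ, neg_add]) (τ := t) (N := ψ t) (C := C)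
    (Or.inl (by simp)) rfl (by omega) (by omega) (fun s h => by
      rcases hs s h with h | h | h
      · exact Or.inl h
      · exact Or.inr (Or.inl h)
      · exact Or.inr (Or.inr ⟨by simpa using (hb s h.1).1, fun a =>
          ((hb _ h.2.2).2 a).neg.mono (by omega) (by omega)⟩)) (by omega) D
    (h3.neg.mono (by omega) (by omega)) (by omega) (by omega)
  simpa using h4.neg

end Pool.Agent.Lib.MP_288210_al
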