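import Mathlib

namespace Pool.Agent.Lib.MP_288210_al

open Matrix

section Cocycle

variable {ι R V : Type} [CommRing R] [AddCommGroup V] [Module R V]

/-- twisted cocycles on a free group -/
def Coc (p : FreeGroup ι →* R) (c : FreeGroup ι → V) : Prop :=
  ∀ x y, c (x * y) = c x + p x • c y

lemma Coc.one {p : FreeGroup ι →* R} {c : FreeGroup ι → V} (h : Coc p c) : c 1 = 0 := by
  have := h 1 1
  rw [mul_one, map_one, one_smul] at this
  exact left_eq_add.1 this

lemma Coc.inv {p : FreeGroup ι →* R} {c : FreeGroup ι → V} (h : Coc p c) (x : FreeGroup ι) :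
    c x⁻¹ = -(p x⁻¹ • c x) := by
  have := h x⁻¹ x
  rw [inv_mul_cancel, h.one] at this
  exact eq_neg_of_add_eq_zero_left this.symm

lemma Coc.ext {p : FreeGroup ι →* R} {c c' : FreeGroup ι → V} (h : Coc p c) (h' : Coc p c')
    (e : ∀ i, c (.of i) = c' (.of i)) (x : FreeGroup ι) : c x = c' x := by
  induction x using FreeGroup.induction_on with
  | C1 => rw [h.one, h'.one]
  | of i => exact e i
  | inv_of i hi => rw [h.inv, h'.inv, hi]
  | mul x y hx hy => rw [h, h', hx, hy]

lemma exists_coc (p : FreeGroup ι →* R) (z : ι → V) :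
    ∃ c : FreeGroup ι → V, Coc p c ∧ ∀ i, c (.of i) = z i := by
  let f : ι → Equiv.Perm V := fun i =>
    { toFun := fun v => z i + p (.of i) • v
      invFun := fun v => p (FreeGroup.of i)⁻¹ • (v - z i)
      left_inv := fun v => by
        simp only [add_sub_cancel_left, smul_smul, ← map_mul, inv_mul_cancel, map_one, one_smul]
      right_inv := fun v => by
        simp only [smul_smul, ← map_mul, mul_inv_cancel, map_one, one_smul, add_sub_cancel] }
  have key : ∀ x v, FreeGroup.lift f x v = FreeGroup.lift f x 0 + p x • v := by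
    intro x
    induction x using FreeGroup.induction_on with
    | C1 => intro v; simp
    | of i => intro v; simp [f]
    | inv_of i _ =>
      intro v
      rw [map_inv, FreeGroup.lift_apply_of]
      change p (FreeGroup.of i)⁻¹ • (v - z i) = p (FreeGroup.of i)⁻¹ • (0 - z i) + _
      rw [← smul_add]; congr 1; abel
    | mul x y hx hy =>
      intro v
      rw [map_mul, Equiv.Perm.mul_apply, Equiv.Perm.mul_apply, hx, hx (FreeGroup.lift f y 0),
        hy, smul_add, map_mul, mul_smul, add_assoc]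
  refine ⟨fun x => FreeGroup.lift f x 0, fun x y => ?_, fun i => by simp [f]⟩
  simp only [map_mul, Equiv.Perm.mul_apply]
  exact key _ _

lemma Coc.comm {p : FreeGroup ι →* R} {c : FreeGroup ι → V} (h : Coc p c) (a b : FreeGroup ι) :
    c (a * b * a⁻¹ * b⁻¹) = (1 - p b) • c a + (p a - 1) • c b := by
  have e1 : p (a * b) * p a⁻¹ = p b := by
    rw [map_mul, mul_right_comm, ← map_mul, mul_inv_cancel, map_one, one_mul]
  have e2 : p (a * b * a⁻¹) * p b⁻¹ = 1 := by
    rw [map_mul, e1, ← map_mul, mul_inv_cancel, map_one]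
  rw [h, h, h, h.inv, h.inv, smul_neg, smul_neg, smul_smul, smul_smul, e1, e2]
  module

lemma Coc.list {p : FreeGroup ι →* R} {c : FreeGroup ι → V} (h : Coc p c)
    (L : List (FreeGroup ι)) (hL : ∀ x ∈ L, p x = 1) : c L.prod = (L.map c).sum := by
  induction L with
  | nil => exact h.one
  | cons x L ih =>
    rw [List.prod_cons, h, hL x (by simp), one_smul, ih fun y hy => hL y (by simp [hy])]
    simp

end Cocycle

/-- the boundary word of the genus `h` surface with one boundary circle -/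
def bdry (h : ℕ) : FreeGroup (Fin h ⊕ Fin h) :=
  (List.ofFn fun i : Fin h => FreeGroup.of (Sum.inl i) * FreeGroup.of (Sum.inr i) *
    (FreeGroup.of (Sum.inl i))⁻¹ * (FreeGroup.of (Sum.inr i))⁻¹).prod

lemma Coc.bdry {R V : Type} [CommRing R] [AddCommGroup V] [Module R V] {h : ℕ}
    {p : FreeGroup (Fin h ⊕ Fin h) →* R} {c : FreeGroup (Fin h ⊕ Fin h) → V} (hc : Coc p c) :
    c (bdry h) = ∑ i, ((1 - p (.of (.inr i))) • c (.of (.inl i)) +
      (p (.of (.inl i)) - 1) • c (.of (.inr i))) := by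
  rw [Pool.Agent.Lib.MP_288210_al.bdry, hc.list, List.map_ofFn, List.sum_ofFn]
  · exact Finset.sum_congr rfl fun i _ => hc.comm _ _
  · intro x hx
    obtain ⟨i, rfl⟩ := List.mem_ofFn.1 hx
    rw [map_mul, map_mul, map_mul, mul_right_comm (p _), ← map_mul, mul_inv_cancel, map_one,
      one_mul, ← map_mul, mul_inv_cancel, map_one]

lemma hom_bdry {R : Type} [CommMonoid R] {h : ℕ} (p : FreeGroup (Fin h ⊕ Fin h) →* R) :
    p (bdry h) = 1 := by
  rw [bdry, map_list_prod]
  refine List.prod_eq_one fun x hx => ?_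
  obtain ⟨y, hy, rfl⟩ := List.mem_map.1 hx
  obtain ⟨i, rfl⟩ := List.mem_ofFn.1 hy
  rw [map_mul, map_mul, map_mul, mul_right_comm (p _), ← map_mul, mul_inv_cancel, map_one,
      one_mul, ← map_mul, mul_inv_cancel, map_one]

lemma exists_period {ι Q : Type} [Finite ι] [Group Q] [Finite Q] (ε : FreeGroup ι →* Q)
    (β : MulAut (FreeGroup ι)) : ∃ k, 0 < k ∧ ∀ l x, ε ((β ^ (k * l)) x) = ε x := by
  obtain ⟨a, b, hab, e⟩ := Finite.exists_ne_map_eq_of_infinite
    fun (k : ℕ) (i : ι) => ε ((β ^ k) (.of i))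
  wlog hlt : a < b generalizing a b
  · exact this b a hab.symm e.symm (by omega)
  have e1 : ε.comp (β ^ a).toMonoidHom = ε.comp (β ^ b).toMonoidHom :=
    FreeGroup.ext_hom _ _ fun i => congrFun e i
  obtain ⟨k, rfl⟩ := Nat.exists_eq_add_of_lt hlt
  have e2 : ∀ x, ε ((β ^ (k + 1)) x) = ε x := fun x => by
    obtain ⟨y, rfl⟩ := (β ^ a).surjective x
    rw [← MulAut.mul_apply, ← pow_add, show k + 1 + a = a + k + 1 by ring]
    exact (DFunLike.congr_fun e1 y).symm
  refine ⟨k + 1, k.succ_pos, fun l => ?_⟩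
  induction l with
  | zero => simp
  | succ l ih => intro x; rw [mul_add, mul_one, pow_add, MulAut.mul_apply, ih, e2]

lemma sum_char {Q : Type} [AddCommGroup Q] [Fintype Q] (f : AddMonoidAlgebra ℤ Q) :
    ∃ c : ℤ, ∑ χ : AddChar Q ℂ, AddMonoidAlgebra.lift ℤ ℂ Q χ.toMonoidHom f =
      (Fintype.card Q * c : ℤ) := by
  classical
  induction f using AddMonoidAlgebra.induction_on with
  | of m =>
    simp only [AddMonoidAlgebra.lift_of, AddChar.toMonoidHom_apply, toAdd_ofAdd,
      AddChar.sum_apply_eq_ite]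
    split_ifs
    · exact ⟨1, by simp⟩
    · exact ⟨0, by simp⟩
  | add x y hx hy =>
    obtain ⟨c, hc⟩ := hx
    obtain ⟨d, hd⟩ := hy
    exact ⟨c + d, by simp only [map_add, Finset.sum_add_distrib, hc, hd]; push_cast; ring⟩
  | smul r x hx =>
    obtain ⟨c, hc⟩ := hx
    exact ⟨r * c, by
      simp only [map_zsmul]; rw [← Finset.smul_sum, hc, zsmul_eq_mul]; push_cast; ring⟩

lemma solve {ι : Type} [Fintype ι] [DecidableEq ι] (X : Matrix ι ι ℂ) (hX : X.adjugate ≠ 0)
    (d δ : ι → ℂ) (hd : d ≠ 0) (h1 : d ᵥ* X = 0) (h2 : d ⬝ᵥ δ = 0) : ∃ z, X *ᵥ z = δ := by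
  obtain ⟨i, l, h⟩ : ∃ i l, X.adjugate i l ≠ 0 := by
    by_contra h
    push Not at h
    exact hX (by ext i l; exact h i l)
  rw [adjugate_apply] at h
  set Y := X.updateRow l (Pi.single i 1) with hY
  have hr : ∀ m, m ≠ l → Y m = X m := fun m hm => updateRow_ne hm
  have hl : d l ≠ 0 := fun e => h <| exists_vecMul_eq_zero_iff.1 ⟨d, hd, by
    rw [← h1]
    ext k
    refine Finset.sum_congr rfl fun m _ => ?_
    by_cases hm : m = l
    · rw [hm, e, zero_mul, zero_mul]
    · change d m * Y m k = d m * X m k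
      rw [hr m hm]⟩
  have hz : Y *ᵥ (Y⁻¹ *ᵥ δ) = δ := by
    rw [mulVec_mulVec, mul_nonsing_inv _ (Ne.isUnit h), one_mulVec]
  set z := Y⁻¹ *ᵥ δ
  have h3 : ∀ m, m ≠ l → (X *ᵥ z) m = δ m := fun m hm => by
    rw [← hz]
    change X m ⬝ᵥ z = Y m ⬝ᵥ z
    rw [hr m hm]
  have h4 : d ⬝ᵥ (X *ᵥ z - δ) = 0 := by
    rw [dotProduct_sub, h2, dotProduct_mulVec, h1, zero_dotProduct, sub_zero]
  rw [dotProduct, Finset.sum_eq_single l (fun m _ hm => by simp [h3 m hm]) (by simp)] at h4
  refine ⟨z, funext fun m => ?_⟩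
  by_cases hm : m = l
  · rw [hm]; exact sub_eq_zero.1 ((mul_eq_zero.1 h4).resolve_left hl)
  · exact h3 m hm

lemma to_int {ι : Type} [Finite ι] (p : FreeGroup ι →* ℂ) (hp : (Set.range p).Finite)
    {c : FreeGroup ι → ℂ} (hc : Coc p c) {a : FreeGroup ι} (ha : c a ≠ 0) :
    ∃ η : FreeGroup ι → ℤ, η a ≠ 0 ∧ (∀ x y, c x = c y → η x = η y) ∧
      ∀ x y, p x = 1 → η (x * y) = η x + η y := by
  let S : Set ℂ := Set.image2 (· * ·) (Set.range p) (Set.range fun i => c (.of i))
  have hS : S.Finite := hp.image2 _ (Set.finite_range _)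
  let L := Submodule.span ℤ S
  have hL : ∀ x y, p y * c x ∈ L := by
    intro x
    induction x using FreeGroup.induction_on with
    | C1 => intro y; rw [hc.one, mul_zero]; exact L.zero_mem
    | of i => exact fun y => Submodule.subset_span ⟨_, ⟨y, rfl⟩, _, ⟨i, rfl⟩, rfl⟩
    | inv_of i hi =>
      intro y
      rw [hc.inv, mul_neg, smul_eq_mul, ← mul_assoc, ← map_mul]
      exact L.neg_mem (hi _)
    | mul x x' hx hx' =>
      intro y
      rw [hc, mul_add, smul_eq_mul, ← mul_assoc, ← map_mul]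
      exact L.add_mem (hx _) (hx' _)
  have hL' : ∀ x, c x ∈ L := fun x => by simpa using hL x 1
  have : Module.Finite ℤ L := Module.Finite.span_of_finite ℤ hS
  obtain ⟨f, hf⟩ : ∃ f : Module.Dual ℤ L, f ⟨c a, hL' a⟩ ≠ 0 := by
    by_contra h
    push Not at h
    exact ha (congrArg Subtype.val ((Module.forall_dual_apply_eq_zero_iff ℤ _).1 h))
  refine ⟨fun x => f ⟨c x, hL' x⟩, hf, fun x y e => by simp only [e], fun x y hx => ?_⟩
  rw [← map_add]
  exact congrArg f (Subtype.ext (by simp [hc x y, hx]))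

end Pool.Agent.Lib.MP_288210_al
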