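import Pool.Agent.Lib.MP_288210_al.Tower

namespace Pool.Agent.Lib.MP_288210_al

open Matrix

lemma conj_pow {A : Type} [Group A] (α : MulAut A) {b w : A} (hw : α b = w * b * w⁻¹) (k : ℕ) :
    ∃ w', (α ^ k) b = w' * b * w'⁻¹ := by
  induction k with
  | zero => exact ⟨1, by simp⟩
  | succ k ih =>
    obtain ⟨w', h⟩ := ih
    exact ⟨α w' * w, by rw [pow_succ', MulAut.mul_apply, h, map_mul, map_mul, hw, map_inv]; group⟩

lemma good_char {ι Q : Type} [Fintype ι] [DecidableEq ι] [AddCommGroup Q] [Fintype Q]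
    (X : Matrix ι ι (AddMonoidAlgebra ℤ Q))
    (h : ∀ χ : AddChar Q ℂ, χ ≠ 0 →
      ((AddMonoidAlgebra.lift ℤ ℂ Q χ.toMonoidHom).mapMatrix X).adjugate = 0) (i l : ι) :
    (Fintype.card Q : ℤ) ∣ ((AddMonoidAlgebra.lift ℤ ℤ Q 1).mapMatrix X).adjugate i l := by
  classical
  obtain ⟨c, hc⟩ := sum_char (X.adjugate i l)
  rw [Finset.sum_eq_single 0 (fun χ _ hχ => by
    have := congrFun (congrFun (h χ hχ) i) l
    rwa [← AlgHom.map_adjugate] at this) (by simp)] at hc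
  have e : AddMonoidAlgebra.lift ℤ ℂ Q (0 : AddChar Q ℂ).toMonoidHom =
      (Algebra.ofId ℤ ℂ).comp (AddMonoidAlgebra.lift ℤ ℤ Q 1) := by
    ext; simp
  rw [e] at hc
  rw [← AlgHom.map_adjugate]
  exact ⟨c, by
    have h2 : (((AddMonoidAlgebra.lift ℤ ℤ Q 1) (X.adjugate i l) : ℤ) : ℂ) = _ := hc
    exact_mod_cast h2⟩

theorem vht {h : ℕ} (hh : 0 < h) (α : MulAut (FreeGroup (Fin h ⊕ Fin h)))
    (w0 : FreeGroup (Fin h ⊕ Fin h)) (hw : α (bdry h) = w0 * bdry h * w0⁻¹)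
    (hper : ∀ k, 0 < k → ∀ f : FreeGroup (Fin h ⊕ Fin h) →* Multiplicative ℤ,
      (∀ x, f ((α ^ k) x) = f x) → f = 1) (k1 : ℕ) (hk1 : 0 < k1) :
    ∃ l, 0 < l ∧ ∃ A' : Subgroup (FreeGroup (Fin h ⊕ Fin h)), A'.FiniteIndex ∧
      (∀ x, (α ^ (k1 * l)) x * x⁻¹ ∈ A') ∧ ∃ η : FreeGroup (Fin h ⊕ Fin h) → ℤ,
      (∀ x ∈ A', ∀ y, η (x * y) = η x + η y) ∧ (∀ x ∈ A', η ((α ^ (k1 * l)) x) = η x) ∧
      ∃ a, η (a * ((α ^ (k1 * l)) a)⁻¹) ≠ 0 := by
  classical
  have : Nonempty (Fin h ⊕ Fin h) := ⟨.inl ⟨0, hh⟩⟩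
  have hP : ∀ n, ∃ P : FreeGroup (Fin h ⊕ Fin h) →* Multiplicative (Fin h ⊕ Fin h → ZMod n),
      ∀ x, P x = .ofAdd fun i => (abv x i : ZMod n) := fun n =>
    ⟨MonoidHom.mk' (fun x => .ofAdd fun i => (abv x i : ZMod n)) fun x y => by
      rw [← ofAdd_add, abv_mul]; congr 1; ext i; simp, fun _ => rfl⟩
  obtain ⟨P3, hP3⟩ := hP 3
  obtain ⟨k0, hk0, hper3⟩ := exists_period P3 α
  set γ0 := α ^ (k0 * k1) with hγ0
  obtain ⟨N, hN⟩ : ∃ N : Matrix _ _ ℤ, Mat γ0 = 1 + (3 : ℤ) • N := by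
    have : ∀ i l, ∃ c, (Mat γ0 - 1) i l = 3 * c := fun i l => by
      have := hper3 k1 (.of i)
      rw [hP3, hP3] at this
      have := congrFun (Multiplicative.ofAdd.injective this) l
      rw [abv_of] at this
      refine (ZMod.intCast_zmod_eq_zero_iff_dvd _ 3).1 ?_
      rw [Matrix.sub_apply, Int.cast_sub, sub_eq_zero, Matrix.one_apply]
      exact this.trans (by rw [Pi.single_apply]; simp only [eq_comm])
    choose N hN using this
    exact ⟨Matrix.of N, eq_add_of_sub_eq' (by ext i l; exact hN i l)⟩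
  have hdet := det_ne_zero γ0 (hper _ (by positivity))
  obtain ⟨w1, hw1⟩ := conj_pow α hw (k0 * k1)
  set j := (Mat γ0 - 1).det.natAbs with hj
  obtain ⟨V, w, u, h1, h2, h3⟩ := tower γ0 N hN _ _ hw1 j
  refine ⟨k0 * 3 ^ j, by positivity, ?_⟩
  rw [← mul_assoc, mul_comm k1, pow_mul, ← hγ0]
  set γ := γ0 ^ 3 ^ j
  obtain ⟨P, hP⟩ := hP (3 ^ j)
  have hc : ((3 ^ j : ℤ) : ZMod (3 ^ j)) = 0 := by exact_mod_cast ZMod.natCast_self (3 ^ j)
  have hγ : ∀ x, P (γ x) = P x := fun x => by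
    rw [hP, hP, abv_map, eq_add_of_sub_eq' h1, vecMul_add, vecMul_one, vecMul_smul]
    congr 1; ext i
    rw [Pi.add_apply, Pi.smul_apply, smul_eq_mul, Int.cast_add, Int.cast_mul, hc, zero_mul,
      add_zero]
  have hPw : P w = 1 := by
    rw [hP, h3]
    congr 1; ext i
    rw [Pi.smul_apply, smul_eq_mul, Int.cast_mul, hc, zero_mul]; rfl
  let p := (AddMonoidAlgebra.of ℤ (Fin h ⊕ Fin h → ZMod (3 ^ j))).comp P
  obtain ⟨D, hD, hD1⟩ := exists_coc p fun i : Fin h ⊕ Fin h =>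
    (Pi.single i 1 : Fin h ⊕ Fin h → AddMonoidAlgebra ℤ (Fin h ⊕ Fin h → ZMod (3 ^ j)))
  have hmap : ∀ {S : Type} [CommRing S] (q : Multiplicative (Fin h ⊕ Fin h → ZMod (3 ^ j)) →* S),
      Coc (q.comp P) (fun x i => AddMonoidAlgebra.lift ℤ S _ q (D x i)) ∧
      ∀ i, (fun l => AddMonoidAlgebra.lift ℤ S _ q (D (.of i) l)) = Pi.single i 1 := fun q =>
    ⟨fun x y => funext fun i => by simp [hD x y, p], fun i => funext fun l => by
      rw [hD1, Pi.single_apply, Pi.single_apply]; split_ifs <;> simp⟩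
  obtain ⟨χ, hχ, hX⟩ : ∃ χ : AddChar (Fin h ⊕ Fin h → ZMod (3 ^ j)) ℂ, χ ≠ 0 ∧
      ((AddMonoidAlgebra.lift ℤ ℂ _ χ.toMonoidHom).mapMatrix
        ((Matrix.of fun i => D (γ (.of i))) - 1)).adjugate ≠ 0 := by
    by_contra hn
    push Not at hn
    have h4 := good_char _ hn
    have h5 : (AddMonoidAlgebra.lift ℤ ℤ _ 1).mapMatrix
        ((Matrix.of fun i => D (γ (.of i))) - 1) = Mat γ - 1 := by
      rw [map_sub, map_one (AlgHom.mapMatrix _)]
      congr 1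
      ext i l
      exact congrFun ((hmap (1 : _ →* ℤ)).1.ext abv_coc
        (fun i => ((hmap 1).2 i).trans (abv_of i).symm) (γ (.of i))) l
    rw [h5, h1, Fintype.card_fun, ZMod.card] at h4
    have h6 := Int.natAbs_dvd_natAbs.2 (pow_dvd_det j _ V fun i l => by exact_mod_cast h4 i l)
    have h7 := Nat.le_of_dvd (Int.natAbs_pos.2 hdet) h6
    rw [Int.natAbs_pow, ← hj] at h7
    exact absurd (Nat.lt_pow_self (by norm_num)) (not_lt.2 h7)
  obtain ⟨hE, hE1⟩ := hmap χ.toMonoidHom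
  set q := χ.toMonoidHom.comp P with hq
  set E := fun x i => AddMonoidAlgebra.lift ℤ ℂ _ χ.toMonoidHom (D x i) with hEdef
  have hqγ : ∀ x, q (γ x) = q x := fun x => congrArg χ.toMonoidHom (hγ x)
  have hqw : q w = 1 := by rw [hq, MonoidHom.comp_apply, hPw, map_one]
  set J : Matrix _ _ ℂ := Matrix.of fun i => E (γ (.of i)) with hJ
  have hch : ∀ x, E (γ x) = E x ᵥ* J := hE.chain hE1 γ hqγ
  replace hX : (J - 1).adjugate ≠ 0 := by rwa [map_sub, map_one] at hX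
  have hδ : ∀ x, E x ⬝ᵥ (fun i => q (.of i) - 1) = q x - 1 :=
    (hE.dot _).ext (coc_self q) fun i => by
      rw [show E (.of i) = _ from hE1 i, single_one_dotProduct]
  obtain ⟨i0, hi0⟩ : ∃ i, q (.of i) ≠ 1 := by
    by_contra hn
    push Not at hn
    have hs : ∀ i, χ (Pi.single i 1) = 1 := fun i => by
      have := hn i
      rw [hq, MonoidHom.comp_apply, hP, abv_of] at this
      rw [← this]
      refine congrArg χ (funext fun l => ?_)
      change _ = (((Pi.single i 1 : _ → ℤ) l : ℤ) : ZMod (3 ^ j))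
      simp only [Pi.single_apply]; split_ifs <;> simp
    have e : χ.toAddMonoidHom = 0 := AddMonoidHom.functions_ext _ _ _ fun i x => by
      rw [← ZMod.natCast_zmod_val x, ← nsmul_one, Pi.single_smul, map_nsmul, map_nsmul]
      exact congrArg (x.val • ·) (hs i)
    exact hχ (DFunLike.ext _ _ fun v => DFunLike.congr_fun e v)
  have hd : E (bdry h) ≠ 0 := fun e => hi0 <| by
    have hb := fun l => congrFun (hE.bdry.symm.trans e) l
    simp only [show ∀ i, E (.of i) = Pi.single i 1 from hE1, Finset.sum_apply, Pi.add_apply,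
      Pi.smul_apply, Pi.single_apply, smul_eq_mul] at hb
    rcases i0 with i | i
    · simpa [sub_eq_zero] using hb (.inr i)
    · exact (sub_eq_zero.1 (by simpa using hb (.inl i))).symm
  have hqi : ∀ x, q x = 1 → q x⁻¹ = 1 := fun x hx => by
    rw [← mul_one (q _), ← hx, ← map_mul, inv_mul_cancel, map_one, hx]
  obtain ⟨z, hz⟩ := solve _ hX _ _ hd (by
    rw [vecMul_sub, vecMul_one, ← hch, h2, hE, hE, hE.inv, map_mul, hom_bdry, hqi w hqw, hqw]
    module) (by rw [hδ, hom_bdry, sub_self])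
  have hcc := hE.dot z
  have hγc : ∀ x, E (γ x) ⬝ᵥ z = E x ⬝ᵥ z + (q x - 1) := fun x => by
    rw [hch, ← hδ, ← hz, ← dotProduct_mulVec, ← dotProduct_add, sub_mulVec, one_mulVec,
      add_sub_cancel]
  obtain ⟨η, e1, e2, e3⟩ := to_int q (by
    refine (Set.finite_range χ.toMonoidHom).subset ?_
    rintro _ ⟨x, rfl⟩
    exact ⟨P x, rfl⟩) hcc (a := .of i0 * (γ (.of i0))⁻¹) (by
      have := hcc (.of i0 * (γ (.of i0))⁻¹) (γ (.of i0))
      simp only [inv_mul_cancel_right] at this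
      rw [map_mul, ← hqγ, ← map_mul, mul_inv_cancel, map_one, one_smul, hγc] at this
      intro e
      rw [e, zero_add, left_eq_add, sub_eq_zero] at this
      exact hi0 this)
  have hk : ∀ x ∈ P.ker, q x = 1 := fun x hx => by
    rw [hq, MonoidHom.comp_apply, MonoidHom.mem_ker.1 hx, map_one]
  refine ⟨P.ker, inferInstance, fun x => ?_, η, fun x hx y => e3 x y (hk x hx),
    fun x hx => e2 _ _ ?_, _, e1⟩
  · rw [MonoidHom.mem_ker, map_mul, hγ, ← map_mul, mul_inv_cancel, map_one]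
  · simp only [hγc, hk x hx, sub_self, add_zero]

end Pool.Agent.Lib.MP_288210_al
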