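import Pool.Agent.Lib.MP_288210_al.Spiral
import Pool.Agent.Lib.MP_288210_al.Vht

namespace Pool.Agent.Lib.MP_288210_al

open SemidirectProduct Monoid Subgroup

/-- the mapping torus group -/
abbrev MT {A : Type} [Group A] (α : MulAut A) : Type :=
  A ⋊[zpowersHom (MulAut A) α] Multiplicative ℤ

variable {A B G : Type} [Group A] [Group B] [Group G]

lemma zpow_ind (α : MulAut A) {P : A → A → Prop} (h0 : ∀ x, P x x)
    (h1 : ∀ x y, P x y → P x (α y)) (h2 : ∀ x y, P x (α y) → P x y) (j : ℤ) (x : A) :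
    P x ((α ^ j) x) := by
  induction j using Int.induction_on with
  | zero => exact h0 x
  | succ i ih => rw [add_comm, zpow_add, zpow_one]; exact h1 _ _ ih
  | pred i ih =>
    refine h2 _ _ ?_
    rwa [← MulAut.mul_apply, ← zpow_one_add, show 1 + (-(i : ℤ) - 1) = -i by ring]

lemma inter_zpow (α : MulAut A) (f : A →* G) (τ : G) (h : ∀ x, f (α x) = τ * f x * τ⁻¹)
    (j : ℤ) (x : A) : f ((α ^ j) x) = τ ^ j * f x * (τ ^ j)⁻¹ := by
  induction j using Int.induction_on with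
  | zero => simp
  | succ i ih => rw [add_comm, zpow_add, zpow_one, MulAut.mul_apply, h, ih]; group
  | pred i ih =>
    have := h ((α ^ (-(i : ℤ) - 1)) x)
    rw [← MulAut.mul_apply, ← zpow_one_add, show 1 + (-(i : ℤ) - 1) = -i by ring, ih] at this
    rw [show f ((α ^ (-(i : ℤ) - 1)) x) = τ⁻¹ * (τ * f ((α ^ (-(i : ℤ) - 1)) x) * τ⁻¹) * τ by
      group, ← this]
    group

lemma exists_lift (α : MulAut A) (f : A →* G) (τ : G) (h : ∀ x, f (α x) = τ * f x * τ⁻¹) :
    ∃ F : MT α →* G, ∀ x, F x = f x.left * τ ^ x.right.toAdd :=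
  ⟨SemidirectProduct.lift f (zpowersHom G τ) fun g => MonoidHom.ext fun x =>
    inter_zpow α f τ h g.toAdd x, fun _ => rfl⟩

lemma inl_act (α : MulAut A) (x : A) :
    (inl (α x) : MT α) = inr (.ofAdd 1) * inl x * (inr (.ofAdd 1))⁻¹ := by
  rw [← map_inv, ← inl_aut]; simp

lemma mt_eq {α : MulAut A} (x : MT α) : x = inl x.left * inr (.ofAdd 1) ^ x.right.toAdd := by
  rw [← map_zpow, ← ofAdd_zsmul, smul_eq_mul, mul_one, ofAdd_toAdd, inl_left_mul_inr_right]

lemma fg_map {K : Subgroup A} (hK : K.FG) (f : A →* G) : (K.map f).FG := by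
  obtain ⟨S, hS, hS'⟩ := (Subgroup.fg_iff K).1 hK
  exact (Subgroup.fg_iff _).2 ⟨f '' S, by rw [← MonoidHom.map_closure, hS], hS'.image f⟩

theorem core (α : MulAut A) (β : MulAut B) (ε : B →* Multiplicative (ZMod 2)) (hε : ε.ker.FG)
    {b0 : B} (hb0 : ε b0 ≠ 1) (hεβ : ∀ y, ε (β y) = ε y) (A' : Subgroup A) (hA' : A'.FG)
    (hinv : ∀ x, α x * x⁻¹ ∈ A') (η : A → ℤ) (hη : ∀ x ∈ A', ∀ y, η (x * y) = η x + η y)
    (hηα : ∀ x ∈ A', η (α x) = η x) {a : A} (ha : η (a * (α a)⁻¹) ≠ 0) :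
    ¬ LERF (MT (A := Coprod A B) (MulEquiv.coprodCongr α β)) := by
  set φ : MulAut (Coprod A B) := MulEquiv.coprodCongr α β
  have hφ1 : ∀ x, φ (Coprod.inl x) = Coprod.inl (α x) := fun _ => rfl
  have hφ2 : ∀ x, φ (Coprod.inr x) = Coprod.inr (β x) := fun _ => rfl
  have hi : ∀ x, α x ∈ A' ↔ x ∈ A' := fun x => by
    rw [← A'.mul_mem_cancel_left (y := x) (hinv x), inv_mul_cancel_right]
  have hz := zpow_ind α (P := fun x y => x ∈ A' → y ∈ A' ∧ η y = η x) (fun _ h => ⟨h, rfl⟩)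
    (fun x y h hx => ⟨(hi _).2 (h hx).1, (hηα _ (h hx).1).trans (h hx).2⟩)
    fun x y h hx => ⟨(hi _).1 (h hx).1, (hηα _ ((hi _).1 (h hx).1)).symm.trans (h hx).2⟩
  have hη1 : η 1 = 0 := by have := hη 1 A'.one_mem 1; rw [mul_one] at this; omega
  let T : MT φ := inr (.ofAdd 1)
  let t : MT α := inr (.ofAdd 1)
  obtain ⟨j, hj⟩ := exists_lift α ((inl : _ →* MT φ).comp Coprod.inl) T fun x =>
    inl_act φ (Coprod.inl x)
  have hjt : j t = T := by simp [hj, t]
  let H' : Subgroup (MT α) :=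
    { carrier := {x | x.left ∈ A'}
      mul_mem' := fun {x y} hx hy => A'.mul_mem hx (hz _ _ hy).1
      one_mem' := A'.one_mem
      inv_mem' := fun {x} hx => (hz _ _ (A'.inv_mem hx)).1 }
  let f : A' →* H' := ((inl : A →* MT α).comp A'.subtype).codRestrict H' fun x => x.2
  obtain ⟨S, hS, hS'⟩ := Group.fg_iff.1 ((Group.fg_iff_subgroup_fg A').2 hA')
  have hcl : ∀ x, f x ∈ closure (f '' S) := fun x => by
    rw [← MonoidHom.map_closure, hS]; exact ⟨x, trivial, rfl⟩
  have ht : t ∈ H' := A'.one_mem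
  obtain ⟨N0, hN0⟩ := ker_fg (hS'.image f) ⟨t, ht⟩ (by
    refine eq_top_iff.2 fun x _ => ?_
    rw [show x = f ⟨x.1.left, x.2⟩ * ⟨t, ht⟩ ^ x.1.right.toAdd from Subtype.ext (mt_eq x.1)]
    exact mul_mem (closure_mono (Set.subset_insert _ _) (hcl _))
      (zpow_mem (subset_closure (Set.mem_insert _ _)) _)) (by
    rintro _ ⟨s, -, rfl⟩
    constructor
    · convert hcl ⟨α s, (hi _).2 s.2⟩ using 1
      exact Subtype.ext (inl_act α _).symm
    · convert hcl ⟨α⁻¹ s, (hi _).1 (by simp)⟩ using 1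
      refine Subtype.ext ?_
      change t⁻¹ * inl s.1 * t = inl (α⁻¹ s.1)
      conv_lhs => rw [← MulAut.apply_inv_self _ α s.1, inl_act]
      simp only [t]; group) fun x => η x.1.left
  set e := η (a * (α a)⁻¹) with he
  let N := max N0 (|e| + 1)
  let ψ : MT α → ℤ := fun x => η x.left + N * x.right.toAdd
  have hψ : ∀ x ∈ H', ∀ y ∈ H', ψ (x * y) = ψ x + ψ y := fun x hx y hy => by
    have e1 : η (x * y).left = η x.left + η y.left :=
      (hη _ hx _).trans (congrArg _ (hz _ _ hy).2)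
    simp only [ψ, e1, mul_right, toAdd_mul]; ring
  have hψt : ψ t = N := by simp [ψ, t, hη1]
  let Ψ : H' →* Multiplicative ℤ := MonoidHom.mk' (fun x => .ofAdd (ψ x)) fun x y =>
    congrArg Multiplicative.ofAdd (hψ _ x.2 _ y.2)
  have hK := hN0 (fun x => ψ x) (fun x y => hψ _ x.2 _ y.2) (by
    rintro _ ⟨s, -, rfl⟩
    change η s.1 + N * 0 = η s.1
    ring) (hψt ▸ le_max_left _ _) Ψ.ker fun _ => Iff.rfl
  have hl : (inl a * t * (inl a)⁻¹ : MT α).left = a * (α a)⁻¹ := by simp [t]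
  refine not_lerf j ((inl : _ →* MT φ).comp Coprod.inr) ε hε hb0 t (inl a) (fun m b => ?_)
    (fun X ρ σ h1 h2 => ?_) H' (Ψ.ker.map H'.subtype) ψ (fun x => x.right.toAdd) hψ
    (fun _ _ => rfl) rfl (fun x => ⟨?_, fun h => ⟨⟨x, h.1⟩, h.2, rfl⟩⟩) (fg_map hK _) ht
    (fun h => ha ?_) ?_ (e := e) ?_ ha (hψt ▸ (lt_add_one _).trans_le (le_max_right _ _))
  · refine ⟨(β ^ (-m)) b, ?_, zpow_ind β (P := fun x y => ε y = ε x) (fun _ => rfl)
      (fun x y h => (hεβ _).trans h) (fun x y h => (hεβ _).symm.trans h) _ _⟩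
    rw [inter_zpow β ((inl : _ →* MT φ).comp Coprod.inr) T fun x =>
      inl_act φ (Coprod.inr x), hjt]
    group
  · have hd : ∀ u : Multiplicative (ZMod 2), u = 1 ∨ u = .ofAdd 1 := by decide
    let g : B →* Equiv.Perm X := MonoidHom.mk' (fun b => if ε b = 1 then 1 else σ) fun x y => by
      rw [map_mul]
      rcases hd (ε x) with e1 | e1 <;> rcases hd (ε y) with e2 | e2 <;> rw [e1, e2]
      · simp
      · simp
      · simp
      · rw [if_pos (by decide), if_neg (by decide), h1]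
    obtain ⟨θ, hθ⟩ := exists_lift φ (Coprod.lift (ρ.comp inl) g) (ρ t) fun x => by
      refine DFunLike.congr_fun (Coprod.hom_ext (f := (Coprod.lift (ρ.comp inl) g).comp
        φ.toMonoidHom) (g := (MulAut.conj (ρ t)).toMonoidHom.comp (Coprod.lift (ρ.comp inl) g))
        (MonoidHom.ext fun x => ?_) (MonoidHom.ext fun x => ?_)) x
      · change ρ (inl (α x)) = ρ t * ρ (inl x) * (ρ t)⁻¹
        rw [inl_act, map_mul, map_mul, map_inv]
      · change (if ε (β x) = 1 then 1 else σ) = ρ t * (if ε x = 1 then 1 else σ) * (ρ t)⁻¹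
        rw [hεβ]
        split_ifs
        · simp
        · rw [← h2, mul_inv_cancel_right]
    refine ⟨θ, fun h => ?_, fun b => by simp [hθ, g]⟩
    rw [hj, map_mul, map_zpow, hθ, hθ]
    conv_rhs => rw [mt_eq h]
    simp [T, t]
  · rintro ⟨y, hy, rfl⟩
    exact ⟨y.2, hy⟩
  · have h1 := hη _ (A'.inv_mem (hinv a)) (α a)
    rw [mul_inv_rev, inv_inv, inv_mul_cancel_right, hηα a h] at h1
    omega
  · change _ ∈ A'
    rw [hl]
    simpa using A'.inv_mem (hinv a)
  · simp only [ψ, hl]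
    simp [t, hη1, add_comm, he]

theorem main {N n m h k : ℕ} (hm : 0 < m) (hh : 0 < h) (hk : 0 < k)
    (φ : MulAut (FreeGroup (Fin N))) (g : FreeGroup (Fin N))
    (iA : FreeGroup (Fin n) →* FreeGroup (Fin N)) (iB : FreeGroup (Fin m) →* FreeGroup (Fin N))
    (hinj : Function.Injective (Coprod.lift iA iB))
    (α : MulAut (FreeGroup (Fin n))) (β : MulAut (FreeGroup (Fin m)))
    (hα : ∀ x, iA (α x) = g * (φ ^ k) (iA x) * g⁻¹) (hβ : ∀ y, iB (β y) = g * (φ ^ k) (iB y) * g⁻¹)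
    (π : FreeGroup (Fin n) →* FreeGroup (Fin h ⊕ Fin h)) (hπ : Function.Surjective π)
    (α0 : MulAut (FreeGroup (Fin h ⊕ Fin h))) (hα0 : ∀ x, π (α x) = α0 (π x))
    (w : FreeGroup (Fin h ⊕ Fin h)) (hw : α0 (bdry h) = w * bdry h * w⁻¹)
    (hper : ∀ l, 0 < l → ∀ f : FreeGroup (Fin h ⊕ Fin h) →* Multiplicative ℤ,
      (∀ x, f ((α0 ^ l) x) = f x) → f = 1) : ¬ LERF (MT φ) := by
  intro hL
  let ε : FreeGroup (Fin m) →* Multiplicative (ZMod 2) := FreeGroup.lift fun _ => .ofAdd 1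
  obtain ⟨k1, hk1, hε⟩ := exists_period ε β
  obtain ⟨l, hl, A', hA', h1, η, h2, h3, a, ha⟩ := vht hh α0 w hw hper k1 hk1
  set p := k1 * l with hp
  have hp0 : 0 < p := by positivity
  have hπp : ∀ x, π ((α ^ p) x) = (α0 ^ p) (π x) := by
    induction p with
    | zero => simp
    | succ p ih => intro x; rw [pow_succ, pow_succ, MulAut.mul_apply, ih, hα0, MulAut.mul_apply]
  obtain ⟨a, rfl⟩ := hπ a
  have : (A'.comap π).FiniteIndex := ⟨by rw [index_comap_of_surjective _ hπ]; exact hA'.1⟩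
  let τ : MT φ := inl g * inr (.ofAdd 1) ^ k
  have hτ : ∀ x, inl (g * (φ ^ k) x * g⁻¹) = τ * inl x * τ⁻¹ := fun x => by
    have := inter_zpow φ (inl : _ →* MT φ) _ (inl_act φ) k x
    rw [zpow_natCast, zpow_natCast] at this
    rw [map_mul, map_mul, this, map_inv]; simp only [τ]; group
  obtain ⟨F, hF⟩ := exists_lift (A := Coprod _ _) (MulEquiv.coprodCongr (α ^ p) (β ^ p))
    ((inl : _ →* MT φ).comp (Coprod.lift iA iB)) (τ ^ p) fun x => by
      refine DFunLike.congr_fun (Coprod.hom_ext (f := ((inl : _ →* MT φ).comp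
        (Coprod.lift iA iB)).comp (MulEquiv.coprodCongr (α ^ p) (β ^ p)).toMonoidHom)
        (g := (MulAut.conj (τ ^ p)).toMonoidHom.comp
          ((inl : _ →* MT φ).comp (Coprod.lift iA iB)))
        (MonoidHom.ext fun x => ?_) (MonoidHom.ext fun x => ?_)) x
      · have := inter_zpow α ((inl : _ →* MT φ).comp iA) τ
          (fun x => (congrArg inl (hα x)).trans (hτ _)) p x
        rwa [zpow_natCast, zpow_natCast] at this
      · have := inter_zpow β ((inl : _ →* MT φ).comp iB) τ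
          (fun x => (congrArg inl (hβ x)).trans (hτ _)) p x
        rwa [zpow_natCast, zpow_natCast] at this
  refine core (α ^ p) (β ^ p) ε ((Group.fg_iff_subgroup_fg _).1 inferInstance)
    (b0 := .of ⟨0, hm⟩) (by rw [FreeGroup.lift_apply_of]; decide) (hε l) (A'.comap π)
    ((Group.fg_iff_subgroup_fg _).1 inferInstance) (fun x => ?_) (fun x => η (π x))
    (fun x hx y => ?_) (fun x hx => ?_) (a := a) ?_
    (hL.of_injective F ((injective_iff_map_eq_one F).2 fun x hx => ?_))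
  · rw [mem_comap, map_mul, map_inv, hπp]; exact h1 _
  · simp only [map_mul]; exact h2 _ hx _
  · simp only [hπp]; exact h3 _ hx
  · simpa only [map_mul, map_inv, hπp] using ha
  · rw [hF] at hx
    have e1 := congrArg (fun y => (rightHom y).toAdd) hx
    have e2 : x.right.toAdd = 0 := by
      simp only [map_mul, map_zpow, map_pow, τ, MonoidHom.comp_apply, rightHom_inl,
        rightHom_inr] at e1
      simpa [hp0.ne', hk.ne'] using e1
    rw [e2, zpow_zero, mul_one] at hx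
    exact SemidirectProduct.ext (hinj (inl_injective (hx.trans (map_one _).symm) |>.trans
      (map_one _).symm)) e2

end Pool.Agent.Lib.MP_288210_al
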