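import Pool.Agent.Lib.MP_288210_al.Fiber

namespace Pool.Agent.Lib.MP_288210_al

open Subgroup

/-- Every finitely generated subgroup is the intersection of the finite index subgroups
containing it. -/
def LERF (G : Type*) [Group G] : Prop :=
  ∀ K : Subgroup G, K.FG → K = sInf {L : Subgroup G | L.FiniteIndex ∧ K ≤ L}

lemma LERF.of_injective {G G' : Type*} [Group G] [Group G'] (h : LERF G) (f : G' →* G)
    (hf : Function.Injective f) : LERF G' := fun K hK => by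
  refine le_antisymm (le_sInf fun L hL => hL.2) fun x hx => ?_
  have h1 : (K.map f).FG := by
    obtain ⟨S, hS, hS'⟩ := (Subgroup.fg_iff K).1 hK
    exact (Subgroup.fg_iff _).2 ⟨f '' S, by rw [← MonoidHom.map_closure, hS], hS'.image f⟩
  rw [← mem_map_iff_mem hf, h _ h1, mem_sInf]
  rintro L ⟨hL, hKL⟩
  refine mem_sInf.1 hx (L.comap f) ⟨⟨?_⟩, map_le_iff_le_comap.1 hKL⟩
  rw [index_comap]
  exact FiniteIndex.index_ne_zero (H := L.subgroupOf f.range)

lemma exists_swap {X : Type*} (τ : Equiv.Perm X) (u : Fin 4 → X)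
    (hu : Function.Injective fun p : Fin 4 × ℤ => (τ ^ p.2) (u p.1)) :
    ∃ σ : Equiv.Perm X, σ * σ = 1 ∧ σ * τ = τ * σ ∧ σ (u 0) = u 1 ∧ σ (u 2) = u 3 := by
  classical
  let e : Fin 4 × ℤ ↪ X := ⟨_, hu⟩
  let π : Equiv.Perm (Fin 4) := Equiv.swap 0 1 * Equiv.swap 2 3
  let P : Equiv.Perm (Fin 4 × ℤ) := π.prodCongr (Equiv.refl ℤ)
  have he : ∀ i j, τ (e (i, j)) = e (i, j + 1) := fun i j => by
    change τ ((τ ^ j) (u i)) = (τ ^ (j + 1)) (u i)
    rw [add_comm, zpow_add, zpow_one, Equiv.Perm.mul_apply]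
  refine ⟨P.viaEmbedding e, ?_, ?_, ?_, ?_⟩
  · rw [← Equiv.Perm.viaEmbeddingHom_apply, ← map_mul, show P * P = 1 from ?_, map_one]
    have : π * π = 1 := by decide
    ext p
    · exact congrArg Fin.val (congrArg (fun f : Equiv.Perm (Fin 4) => f p.1) this)
    · rfl
  · ext x
    rw [Equiv.Perm.mul_apply, Equiv.Perm.mul_apply]
    by_cases hx : x ∈ Set.range e
    · obtain ⟨⟨i, j⟩, rfl⟩ := hx
      rw [he, Equiv.Perm.viaEmbedding_apply, Equiv.Perm.viaEmbedding_apply]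
      exact (he _ _).symm
    · rw [Equiv.Perm.viaEmbedding_apply_of_notMem _ _ _ hx,
        Equiv.Perm.viaEmbedding_apply_of_notMem]
      rintro ⟨⟨i, j⟩, h⟩
      exact hx ⟨(i, j - 1), τ.injective (by rw [he, sub_add_cancel, h])⟩
  · exact Equiv.Perm.viaEmbedding_apply P e (0, 0)
  · exact Equiv.Perm.viaEmbedding_apply P e (2, 0)

lemma exists_mul {d p q : ℤ} (hd : d ≠ 0) (h : ∀ m, d ∣ m * p → d ∣ m * q) :
    ∃ m, d ∣ q - m * p := by
  obtain ⟨c, hc⟩ := Int.gcd_dvd_left d p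
  obtain ⟨c', hc'⟩ := Int.gcd_dvd_right d p
  have hb := Int.gcd_eq_gcd_ab d p
  generalize (Int.gcd d p : ℤ) = g at *
  have h0 : c ≠ 0 := fun e => hd (by rw [hc, e, mul_zero])
  obtain ⟨k, hk⟩ := h c ⟨c', by rw [hc', hc]; ring⟩
  have h1 : q = g * k := mul_left_cancel₀ h0 (by rw [hk, hc]; ring)
  exact ⟨d.gcdB p * k, d.gcdA p * k, by rw [h1]; linear_combination k * hb⟩

theorem not_lerf {G H B : Type} [Group G] [Group H] [Group B] (j : H →* G) (i : B →* G)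
    (ε : B →* Multiplicative (ZMod 2)) (hε : ε.ker.FG) {b0 : B} (hb0 : ε b0 ≠ 1) (t a : H)
    (hB : ∀ (m : ℤ) b, ∃ b', (j t ^ m)⁻¹ * i b * j t ^ m = i b' ∧ ε b' = ε b)
    (huniv : ∀ (X : Type) (ρ : H →* Equiv.Perm X) (σ : Equiv.Perm X), σ * σ = 1 →
      σ * ρ t = ρ t * σ → ∃ θ : G →* Equiv.Perm X, (∀ h, θ (j h) = ρ h) ∧
        ∀ b, θ (i b) = if ε b = 1 then 1 else σ)
    (H' K : Subgroup H) (ψ deg : H → ℤ) (hψ : ∀ x ∈ H', ∀ y ∈ H', ψ (x * y) = ψ x + ψ y)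
    (hdeg : ∀ x y, deg (x * y) = deg x + deg y) (hdt : deg t = 1)
    (hK : ∀ x, x ∈ K ↔ x ∈ H' ∧ ψ x = 0) (hfg : K.FG) (ht : t ∈ H') (ha : a ∉ H')
    (ht2 : a * t * a⁻¹ ∈ H') {e : ℤ} (he : ψ (a * t * a⁻¹) = ψ t + e) (he0 : e ≠ 0)
    (heN : |e| < ψ t) : ¬ LERF G := by
  classical
  intro hL
  set t2 := a * t * a⁻¹ with ht2def
  set N := ψ t with hN
  obtain ⟨e1, e2⟩ := abs_lt.1 heN
  let Ψ : H' →* Multiplicative ℤ := MonoidHom.mk' (fun x => Multiplicative.ofAdd (ψ x))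
    fun x y => congrArg Multiplicative.ofAdd (hψ x x.2 y y.2)
  let Δ : H →* Multiplicative ℤ := MonoidHom.mk' (fun x => Multiplicative.ofAdd (deg x))
    fun x y => congrArg Multiplicative.ofAdd (hdeg x y)
  have p1 : ∀ x ∈ H', ∀ m : ℤ, ψ (x ^ m) = m * ψ x := fun x hx m =>
    congrArg Multiplicative.toAdd (map_zpow Ψ ⟨x, hx⟩ m)
  have p2 : ∀ x ∈ H', ψ x⁻¹ = -ψ x := fun x hx => by simpa using p1 x hx (-1)
  have d1 : ∀ x, ∀ m : ℤ, deg (x ^ m) = m * deg x := fun x m =>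
    congrArg Multiplicative.toAdd (map_zpow Δ x m)
  have d2 : ∀ x, deg x⁻¹ = -deg x := fun x => by simpa using d1 x (-1)
  let κ : H := t2 ^ N * t ^ (-(N + e))
  have hκ : κ ∈ H' ∧ ψ κ = 0 := ⟨mul_mem (zpow_mem ht2 _) (zpow_mem ht _), by
    rw [hψ _ (zpow_mem ht2 _) _ (zpow_mem ht _), p1 _ ht2, p1 _ ht, he]; ring⟩
  have hκ1 : κ ≠ 1 := fun h => by
    have h1 : deg κ = -e := by
      rw [hdeg, d1, d1, ht2def, hdeg, hdeg, d2, hdt]; ring
    have h2 := d1 κ 0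
    rw [h, zpow_zero, ← h, h1] at h2
    omega
  let s : G := j a * i b0
  let M : Subgroup G := K.map j ⊔ ε.ker.map i ⊔ zpowers s
  have hmap : ∀ {A : Type} [Group A] (f : A →* G) (U : Subgroup A), U.FG → (U.map f).FG :=
    fun f U hU => by
      obtain ⟨S, hS, hS'⟩ := (Subgroup.fg_iff U).1 hU
      exact (Subgroup.fg_iff _).2 ⟨f '' S, by rw [← MonoidHom.map_closure, hS], hS'.image f⟩
  have hM : M.FG := ((hmap j K hfg).sup (hmap i _ hε)).sup
    ((Subgroup.fg_iff _).2 ⟨{s}, (zpowers_eq_closure s).symm, Set.finite_singleton s⟩)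
  have hx : (s * j t2)⁻¹ * j κ * (s * j t2) ∈ M := by
    rw [hL M hM, mem_sInf]
    rintro L ⟨hLf, hML⟩
    have l1 : ∀ x ∈ H', ψ x = 0 → j x ∈ L := fun x h1 h2 =>
      hML (mem_sup_left (mem_sup_left ⟨x, (hK x).2 ⟨h1, h2⟩, rfl⟩))
    have l2 : s ∈ L := hML (mem_sup_right (mem_zpowers s))
    have l3 : ∀ m : ℤ, (j t2 ^ m)⁻¹ * s * j t ^ m ∈ L := fun m => by
      obtain ⟨b', h1, h2⟩ := hB m b0
      have h3 : i (b0⁻¹ * b') ∈ L := hML (mem_sup_left (mem_sup_right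
        ⟨_, by rw [SetLike.mem_coe, MonoidHom.mem_ker, map_mul, map_inv, h2, inv_mul_cancel], rfl⟩))
      have h4 := mul_mem l2 h3
      rw [map_mul, map_inv, ← h1] at h4
      convert h4 using 1
      rw [ht2def, map_mul, map_mul, map_inv, conj_zpow]
      simp only [s]
      group
    let S : AddSubgroup ℤ := Subgroup.toAddSubgroup' (((L.comap j).subgroupOf H').map Ψ)
    have l4 : ∀ x ∈ H', j x ∈ L ↔ ψ x ∈ S := fun x hx =>
      ⟨fun h => ⟨⟨x, hx⟩, h, rfl⟩, fun ⟨y, h1, h2⟩ => by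
        have h3 : ψ y = ψ x := congrArg Multiplicative.toAdd h2
        have h4 := l1 ((y : H)⁻¹ * x) (mul_mem (inv_mem y.2) hx) (by
          rw [hψ _ (inv_mem y.2) _ hx, p2 _ y.2, h3]; ring)
        have h5 : j y ∈ L := h1
        simpa using mul_mem h5 h4⟩
    obtain ⟨d, hd⟩ := Int.subgroup_cyclic S
    have l5 : ∀ n, n ∈ S ↔ d ∣ n := fun n => by
      rw [hd, ← AddSubgroup.zmultiples_eq_closure, Int.mem_zmultiples_iff]
    have hd0 : d ≠ 0 := by
      obtain ⟨n, h1, -, h2⟩ := exists_pow_mem_of_index_ne_zero hLf.index_ne_zero (j t)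
      rw [← map_pow, l4 _ (pow_mem ht n), l5, ← zpow_natCast, p1 _ ht] at h2
      rintro rfl
      rcases mul_eq_zero.1 (zero_dvd_iff.1 h2) with h | h <;> omega
    obtain ⟨m, hm⟩ := exists_mul (p := N) (q := N + e) hd0 fun m hm => by
      rw [← p1 _ ht, ← l5, ← l4 _ (zpow_mem ht m), map_zpow] at hm
      rw [← he, ← p1 _ ht2, ← l5, ← l4 _ (zpow_mem ht2 m), map_zpow]
      simpa using mul_mem (mul_mem l2 hm) (inv_mem (l3 m))
    have l6 : j ((t ^ m)⁻¹ * t2) ∈ L := by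
      rw [l4 _ (mul_mem (inv_mem (zpow_mem ht m)) ht2), l5,
        hψ _ (inv_mem (zpow_mem ht m)) _ ht2, p2 _ (zpow_mem ht m), p1 _ ht, he]
      convert hm using 1
      ring
    have l7 := l1 ((t2 ^ m)⁻¹ * κ * t2 ^ m)
      (mul_mem (mul_mem (inv_mem (zpow_mem ht2 m)) hκ.1) (zpow_mem ht2 m)) (by
        rw [hψ _ (mul_mem (inv_mem (zpow_mem ht2 m)) hκ.1) _ (zpow_mem ht2 m),
          hψ _ (inv_mem (zpow_mem ht2 m)) _ hκ.1, p2 _ (zpow_mem ht2 m), hκ.2]; ring)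
    have l8 := mul_mem (l3 m) l6
    have l9 := mul_mem (mul_mem (inv_mem l8) l7) l8
    simp only [map_mul, map_inv, map_zpow] at l9
    convert l9 using 1
    group
  let ρ : H →* Equiv.Perm ((H ⧸ K) ⊕ H) := MulAction.toPermHom H _
  let u : Fin 4 → (H ⧸ K) ⊕ H :=
    ![Sum.inl ((1 : H) : H ⧸ K), Sum.inl (a⁻¹ : H), Sum.inl (t2 : H), Sum.inr 1]
  have q0 : ∀ m : ℤ, t ^ m ∈ K → m = 0 := fun m h => by
    have := ((hK _).1 h).2
    rw [p1 _ ht] at this
    rcases mul_eq_zero.1 this with h | h <;> omega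
  have q1 : ∀ m : ℤ, t2 ^ m ∈ K → m = 0 := fun m h => by
    have := ((hK _).1 h).2
    rw [p1 _ ht2, he] at this
    rcases mul_eq_zero.1 this with h | h <;> omega
  have q2 : ∀ m : ℤ, t ^ m * t2 ∉ K := fun m h => by
    have := ((hK _).1 h).2
    rw [hψ _ (zpow_mem ht m) _ ht2, p1 _ ht, he] at this
    have h2 : e = -(m + 1) * N := by linear_combination this
    rcases lt_trichotomy (m + 1) 0 with h3 | h3 | h3
    · nlinarith
    · rw [h3] at h2; omega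
    · nlinarith
  have q3 : ∀ x ∈ H', ∀ y ∈ H', x * a⁻¹ * y ∉ K := fun x hx y hy h => ha (by
    simpa [mul_assoc] using mul_mem (mul_mem (inv_mem hx) ((hK _).1 h).1) (inv_mem hy))
  have q4 : ∀ m : ℤ, t2⁻¹ * t ^ m * t2 ∈ K → m = 0 := fun m h => by
    have := ((hK _).1 h).2
    rw [hψ _ (mul_mem (inv_mem ht2) (zpow_mem ht m)) _ ht2, hψ _ (inv_mem ht2) _ (zpow_mem ht m),
      p2 _ ht2, p1 _ ht] at this
    have h2 : m * N = 0 := by linear_combination this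
    rcases mul_eq_zero.1 h2 with h | h <;> omega
  have key : ∀ (p q : Fin 4) (m : ℤ), t ^ m • u p = u q → p = q ∧ m = 0 := fun p q m h => by
    have c : ∀ x y : H, t ^ m • (Sum.inl (x : H ⧸ K) : (H ⧸ K) ⊕ H) = Sum.inl (y : H ⧸ K) →
        y⁻¹ * t ^ m * x ∈ K ∧ x⁻¹ * t ^ (-m) * y ∈ K := fun x y h => by
      rw [Sum.smul_inl, Sum.inl.injEq, MulAction.Quotient.smul_mk, QuotientGroup.eq] at h
      exact ⟨by simpa [mul_assoc] using inv_mem h, by simpa [mul_assoc] using h⟩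
    fin_cases p <;> fin_cases q
    · exact ⟨rfl, q0 m (by simpa using (c _ _ h).1)⟩
    · exact (q3 _ (zpow_mem ht (-m)) 1 (one_mem _) (by simpa using (c _ _ h).2)).elim
    · exact (q2 (-m) (by simpa using (c _ _ h).2)).elim
    · exact absurd h (by simp [u])
    · exact (q3 _ (zpow_mem ht m) 1 (one_mem _) (by simpa using (c _ _ h).1)).elim
    · exact ⟨rfl, q1 m (by simpa [ht2def] using (c _ _ h).1)⟩
    · exact (q3 _ (mul_mem (inv_mem ht2) (zpow_mem ht m)) 1 (one_mem _)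
        (by simpa using (c _ _ h).1)).elim
    · exact absurd h (by simp [u])
    · exact (q2 m (by simpa using (c _ _ h).1)).elim
    · exact (q3 _ (mul_mem (inv_mem ht2) (zpow_mem ht (-m))) 1 (one_mem _)
        (by simpa using (c _ _ h).2)).elim
    · exact ⟨rfl, q4 m (c _ _ h).1⟩
    · exact absurd h (by simp [u])
    · exact absurd h (by simp [u])
    · exact absurd h (by simp [u])
    · exact absurd h (by simp [u])
    · refine ⟨rfl, q0 m ?_⟩
      have : t ^ m = 1 := by simpa [u] using h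
      exact this ▸ one_mem _
  obtain ⟨σ, s1, s2, s3, s4⟩ := exists_swap (ρ t) u fun p q h => by
    simp only [← map_zpow] at h
    have h1 : t ^ p.2 • u p.1 = t ^ q.2 • u q.1 := h
    obtain ⟨h2, h3⟩ := key p.1 q.1 (-q.2 + p.2) (by
      rw [zpow_add, mul_smul, h1, ← mul_smul, ← zpow_add, neg_add_cancel, zpow_zero, one_smul])
    exact Prod.ext h2 (by omega)
  obtain ⟨θ, θ1, θ2⟩ := huniv _ ρ σ s1 s2
  have hs : θ s = ρ a * σ := by rw [map_mul, θ1, θ2, if_neg hb0]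
  have hfix : M ≤ (MulAction.stabilizer (Equiv.Perm _) (u 0)).comap θ := by
    refine sup_le (sup_le ?_ ?_) ?_
    · rintro _ ⟨x, hx, rfl⟩
      rw [mem_comap, MulAction.mem_stabilizer_iff, θ1]
      change x • (Sum.inl ((1 : H) : H ⧸ K) : (H ⧸ K) ⊕ H) = Sum.inl ((1 : H) : H ⧸ K)
      rw [Sum.smul_inl, MulAction.Quotient.smul_mk, Sum.inl.injEq, QuotientGroup.eq]
      simpa using hx
    · rintro _ ⟨b, hb, rfl⟩
      rw [mem_comap, θ2, if_pos (MonoidHom.mem_ker.1 hb)]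
      exact one_mem _
    · rw [zpowers_le, mem_comap, MulAction.mem_stabilizer_iff, hs]
      change a • σ (u 0) = u 0
      rw [s3]
      change a • (Sum.inl ((a⁻¹ : H) : H ⧸ K) : (H ⧸ K) ⊕ H) = Sum.inl ((1 : H) : H ⧸ K)
      rw [Sum.smul_inl, MulAction.Quotient.smul_mk, smul_eq_mul, mul_inv_cancel]
  have h1 : θ (s * j t2) (u 0) = Sum.inr a := by
    rw [map_mul, hs, θ1]
    have : ρ t2 (u 0) = u 2 := by
      change t2 • (Sum.inl ((1 : H) : H ⧸ K) : (H ⧸ K) ⊕ H) = Sum.inl ((t2 : H) : H ⧸ K)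
      rw [Sum.smul_inl, MulAction.Quotient.smul_mk, smul_eq_mul, mul_one]
    rw [Equiv.Perm.mul_apply, this, Equiv.Perm.mul_apply, s4]
    change a • (Sum.inr (1 : H) : (H ⧸ K) ⊕ H) = Sum.inr a
    rw [Sum.smul_inr, smul_eq_mul, mul_one]
  have h2 := hfix hx
  rw [mem_comap, MulAction.mem_stabilizer_iff, map_mul, map_mul, map_inv, mul_smul, mul_smul,
    inv_smul_eq_iff, Equiv.Perm.smul_def, Equiv.Perm.smul_def, h1, θ1] at h2
  have h3 : κ • (Sum.inr a : (H ⧸ K) ⊕ H) = Sum.inr a := h2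
  rw [Sum.smul_inr, smul_eq_mul, Sum.inr.injEq, mul_eq_right] at h3
  exact hκ1 h3

end Pool.Agent.Lib.MP_288210_al
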