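import Pool.Agent.Lib.MP_288210_al.Fox

namespace Pool.Agent.Lib.MP_288210_al

open Matrix

variable {ι : Type} [Fintype ι] [DecidableEq ι]

lemma Coc.chain {R : Type} [CommRing R] {p : FreeGroup ι →* R} {D : FreeGroup ι → ι → R}
    (hD : Coc p D) (h1 : ∀ i, D (.of i) = Pi.single i 1) (γ : MulAut (FreeGroup ι))
    (hγ : ∀ x, p (γ x) = p x) (x : FreeGroup ι) :
    D (γ x) = D x ᵥ* Matrix.of fun i => D (γ (.of i)) :=
  Coc.ext (p := p) (c := fun x => D (γ x)) (c' := fun x => D x ᵥ* _)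
    (fun x y => by simp only [map_mul, hD _ _, hγ])
    (fun x y => by simp only [hD x y, add_vecMul, smul_vecMul])
    (fun i => by simp only [h1, single_one_vecMul]; rfl) x

omit [DecidableEq ι] in
lemma Coc.dot {R : Type} [CommRing R] {p : FreeGroup ι →* R} {D : FreeGroup ι → ι → R}
    (hD : Coc p D) (z : ι → R) : Coc p fun x => D x ⬝ᵥ z := fun x y => by
  simp only [hD x y, add_dotProduct, smul_dotProduct]

omit [Fintype ι] [DecidableEq ι] in
lemma coc_self {R : Type} [CommRing R] (p : FreeGroup ι →* R) : Coc p fun x => p x - 1 :=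
  fun x y => by simp only [map_mul, smul_eq_mul]; ring

/-- exponent sums -/
def abv (x : FreeGroup ι) : ι → ℤ :=
  (FreeGroup.lift (fun i => Multiplicative.ofAdd (Pi.single i 1 : ι → ℤ)) x).toAdd

omit [Fintype ι] in
lemma abv_mul (x y : FreeGroup ι) : abv (x * y) = abv x + abv y := by
  simp only [abv, map_mul, toAdd_mul]

omit [Fintype ι] in
lemma abv_coc : Coc (1 : FreeGroup ι →* ℤ) abv := fun x y => by simp [abv_mul]

omit [Fintype ι] in
lemma abv_of (i : ι) : abv (.of i) = Pi.single i 1 := by simp [abv]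

/-- the action on homology -/
def Mat (γ : MulAut (FreeGroup ι)) : Matrix ι ι ℤ := Matrix.of fun i => abv (γ (.of i))

lemma abv_map (γ : MulAut (FreeGroup ι)) (x : FreeGroup ι) : abv (γ x) = abv x ᵥ* Mat γ :=
  abv_coc.chain abv_of γ (fun _ => rfl) x

lemma Mat_mul (γ γ' : MulAut (FreeGroup ι)) : Mat (γ' * γ) = Mat γ * Mat γ' := by
  ext i l
  exact congrFun (abv_map γ' (γ (.of i))) l

lemma tower (γ : MulAut (FreeGroup ι)) (N : Matrix ι ι ℤ) (hN : Mat γ = 1 + (3 : ℤ) • N)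
    (b w : FreeGroup ι) (hw : γ b = w * b * w⁻¹) (j : ℕ) :
    ∃ (V : Matrix ι ι ℤ) (w' : FreeGroup ι) (u : ι → ℤ),
      Mat (γ ^ 3 ^ j) - 1 = (3 ^ j : ℤ) • ((Mat γ - 1) * (1 + (3 : ℤ) • V)) ∧
      (γ ^ 3 ^ j) b = w' * b * w'⁻¹ ∧ abv w' = (3 ^ j : ℤ) • u := by
  induction j with
  | zero => exact ⟨0, w, abv w, by simp, by simpa using hw, by simp⟩
  | succ j ih =>
    obtain ⟨V, w, u, h1, h2, h3⟩ := ih
    rw [pow_succ, pow_mul, pow_succ _ 2, pow_two]
    set g := γ ^ 3 ^ j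
    obtain ⟨N', hN'⟩ : ∃ N' : Matrix ι ι ℤ, Mat g = 1 + (3 : ℤ) • N' :=
      ⟨(3 ^ j : ℤ) • (N * (1 + (3 : ℤ) • V)), by
        rw [eq_add_of_sub_eq' h1, hN, add_sub_cancel_left, smul_mul_assoc, smul_comm]⟩
    have e : Mat g * Mat g + Mat g + 1 = (3 : ℤ) • (1 + (3 : ℤ) • (N' + N' * N')) := by
      rw [hN']; noncomm_ring
    refine ⟨V + (N' + N' * N') + (3 : ℤ) • (V * (N' + N' * N')), g (g w) * g w * w,
      u ᵥ* (1 + (3 : ℤ) • (N' + N' * N')), ?_, ?_, ?_⟩
    · rw [Mat_mul, Mat_mul, show Mat g * (Mat g * Mat g) - 1 =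
        (Mat g - 1) * (Mat g * Mat g + Mat g + 1) by noncomm_ring, e, h1, pow_succ, mul_smul,
        smul_mul_assoc, mul_smul_comm, mul_assoc]
      congr 3
      noncomm_ring
    · simp only [MulAut.mul_apply, h2, map_mul, map_inv]
      group
    · rw [abv_mul, abv_mul, abv_map, abv_map, vecMul_vecMul, pow_succ, mul_smul, smul_comm,
        ← smul_vecMul, ← h3, ← vecMul_smul, ← e, vecMul_add, vecMul_add, vecMul_one]

lemma det_ne_zero (γ : MulAut (FreeGroup ι))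
    (h : ∀ f : FreeGroup ι →* Multiplicative ℤ, (∀ x, f (γ x) = f x) → f = 1) :
    (Mat γ - 1).det ≠ 0 := fun e => by
  obtain ⟨v, hv, e⟩ := exists_mulVec_eq_zero_iff.2 e
  rw [sub_mulVec, one_mulVec, sub_eq_zero] at e
  have := h (MonoidHom.mk' (fun x => Multiplicative.ofAdd (abv x ⬝ᵥ v)) fun x y => by
    rw [abv_mul, add_dotProduct, ofAdd_add]) fun x => by
    simp only [MonoidHom.mk'_apply, abv_map, ← dotProduct_mulVec, e]
  refine hv (funext fun i => ?_)
  simpa [abv_of] using DFunLike.congr_fun this (.of i)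

lemma pow_dvd_det [Nonempty ι] (j : ℕ) (Y V : Matrix ι ι ℤ)
    (h : ∀ i l, ((3 ^ j) ^ Fintype.card ι : ℤ) ∣
      ((3 ^ j : ℤ) • (Y * (1 + (3 : ℤ) • V))).adjugate i l) : (3 ^ j : ℤ) ∣ Y.det := by
  set U := 1 + (3 : ℤ) • V with hU
  have h1 : ∀ i l, (3 ^ j : ℤ) ∣ (Y * U).adjugate i l := fun i l => by
    have := h i l
    obtain ⟨r, hr⟩ := Nat.exists_eq_succ_of_ne_zero (Fintype.card_ne_zero (α := ι))
    rw [adjugate_smul, hr, Nat.succ_sub_one, pow_succ, Matrix.smul_apply, smul_eq_mul] at this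
    exact (mul_dvd_mul_iff_left (by positivity)).1 this
  obtain ⟨i⟩ := ‹Nonempty ι›
  have h2 : (3 ^ j : ℤ) ∣ Y.det * U.det := by
    have := congrFun (congrFun (mul_adjugate (Y * U)) i) i
    rw [Matrix.smul_apply, one_apply_eq, smul_eq_mul, mul_one, det_mul] at this
    rw [← this, mul_apply]
    exact Finset.dvd_sum fun l _ => (h1 l i).mul_left _
  have h3 : ¬ (3 : ℤ) ∣ U.det := by
    intro h3
    have h4 := (ZMod.intCast_zmod_eq_zero_iff_dvd U.det 3).2 h3
    have h5 : (Int.castRingHom (ZMod 3)).mapMatrix U = 1 := by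
      rw [hU, map_add, map_one, map_zsmul, ← Int.cast_smul_eq_zsmul (ZMod 3),
        show ((3 : ℤ) : ZMod 3) = 0 from rfl, zero_smul, add_zero]
    rw [← eq_intCast (Int.castRingHom (ZMod 3)), RingHom.map_det, h5, det_one] at h4
    exact one_ne_zero h4
  exact ((Int.prime_three.coprime_iff_not_dvd.2 h3).pow_left).dvd_of_dvd_mul_right h2

end Pool.Agent.Lib.MP_288210_al
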